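import Pool.Agent.Helper20.RL.St5

set_option autoImplicit false

open MeasureTheory Set Filter Topology
open scoped ENNReal RealInnerProductSpace

namespace Pool.Agent.Helper74.RL

open Pool.Agent.Helper68.LM (Pl BB Bd Av HL ft fm DQ)
open Pool.Agent.Helper20.RG Pool.Agent.Helper20.RL

theorem hPCS (hLRS : StLRS) (hPCR : StPCR) : StPCS := by
  intro A σ q Cf hA hσ hσq hq hq3 hCf
  obtain ⟨r1, r2, r3, r4⟩ := hLRS
  obtain ⟨u₀, C, ε, hC, hε, hmain⟩ := hPCR A σ q Cf hA hσ hσq hq hq3 hCf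
  refine ⟨u₀, C, ε, hC, hε, ?_⟩
  intro u K t s c m F hu hSlo hcm hK hF hD
  set F' : Set Pl := {z : Pl | (2 : ℝ) ^ t • z ∈ F} with hF'
  have h4 : (0 : ℝ) < (4 : ℝ) ^ t := zpow_pos (by norm_num) t
  have h4n : (0 : ℝ) < (4 : ℝ) ^ (-t) := zpow_pos (by norm_num) _
  have h44 : (4 : ℝ) ^ t * (4 : ℝ) ^ (-t) = 1 := by
    rw [← zpow_add₀ (by norm_num : (4 : ℝ) ≠ 0)]; simp
  have hCtl : Ctl (8 * (2 : ℝ) ^ (-(q * u))) F' := by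
    intro y k
    have e1 : F' ∩ Sq y ((2 : ℝ) ^ k) =
        {x : Pl | (2 : ℝ) ^ t • x ∈ F ∩ Sq ((2 : ℝ) ^ t • y) ((2 : ℝ) ^ t * (2 : ℝ) ^ k)} := by
      have h := r4 y t ((2 : ℝ) ^ k)
      rw [← h]
      rfl
    rw [e1, r2]
    have e2 : (2 : ℝ) ^ t * (2 : ℝ) ^ k = (2 : ℝ) ^ (t + (k : ℤ)) := by
      rw [zpow_add₀ (by norm_num : (2 : ℝ) ≠ 0), zpow_natCast]
    rw [e2]
    calc ENNReal.ofReal ((4 : ℝ) ^ (-t)) * volume (F ∩ Sq ((2 : ℝ) ^ t • y) ((2 : ℝ) ^ (t + (k : ℤ))))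
        ≤ ENNReal.ofReal ((4 : ℝ) ^ (-t)) *
          ENNReal.ofReal (8 * (2 : ℝ) ^ (-(q * u)) * (4 : ℝ) ^ (t + (k : ℤ))) := by
          gcongr
          exact hD _ _ (by omega)
      _ = ENNReal.ofReal (8 * (2 : ℝ) ^ (-(q * u)) * (4 : ℝ) ^ k) := by
          rw [← ENNReal.ofReal_mul h4n.le]
          congr 1
          rw [zpow_add₀ (by norm_num : (4 : ℝ) ≠ 0), zpow_natCast]
          calc (4 : ℝ) ^ (-t) * (8 * (2 : ℝ) ^ (-(q * u)) * ((4 : ℝ) ^ t * (4 : ℝ) ^ k))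
              = ((4 : ℝ) ^ t * (4 : ℝ) ^ (-t)) * (8 * (2 : ℝ) ^ (-(q * u)) * (4 : ℝ) ^ k) := by ring
            _ = 8 * (2 : ℝ) ^ (-(q * u)) * (4 : ℝ) ^ k := by rw [h44, one_mul]
  have hres := hmain u K s c m F' hu hSlo hcm hK (r3 F t hF) hCtl
  have hvF : volume F' = ENNReal.ofReal ((4 : ℝ) ^ (-t)) * volume F := r2 F t
  have hvS : ∀ k : ℕ, volume {x | 1 / (u : ℝ) ^ 2 ≤ ∑ j ∈ Finset.range (2 ^ u),
        Y (s j) (c j) (m j) (1 / (2 : ℝ) ^ u) (k : ℤ) (F'.indicator 1) x} =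
      ENNReal.ofReal ((4 : ℝ) ^ (-t)) * volume {x | 1 / (u : ℝ) ^ 2 ≤ ∑ j ∈ Finset.range (2 ^ u),
        Y (s j) (c j) (m j) (1 / (2 : ℝ) ^ u) (t + (k : ℤ)) (F.indicator 1) x} := by
    intro k
    rw [← r2]
    congr 1
    ext x
    simp only [mem_ofPred_eq]
    have e : ∑ j ∈ Finset.range (2 ^ u),
        Y (s j) (c j) (m j) (1 / (2 : ℝ) ^ u) (t + (k : ℤ)) (F.indicator 1) ((2 : ℝ) ^ t • x) =
        ∑ j ∈ Finset.range (2 ^ u),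
        Y (s j) (c j) (m j) (1 / (2 : ℝ) ^ u) (k : ℤ) (F'.indicator 1) x := by
      refine Finset.sum_congr rfl fun j _ => ?_
      rw [r1 F t (t + (k : ℤ))]
      congr 1
      omega
    rw [e]
  rw [Finset.sum_congr rfl (fun k _ => hvS k), ← Finset.mul_sum, hvF] at hres
  -- multiply by `4^t`
  have h1 : ENNReal.ofReal ((4 : ℝ) ^ t) * ENNReal.ofReal ((4 : ℝ) ^ (-t)) = 1 := by
    rw [← ENNReal.ofReal_mul h4.le, h44, ENNReal.ofReal_one]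
  have hres2 := mul_le_mul' (le_refl (ENNReal.ofReal ((4 : ℝ) ^ t))) hres
  calc ∑ k ∈ Finset.range K, volume {x | 1 / (u : ℝ) ^ 2 ≤ ∑ j ∈ Finset.range (2 ^ u),
        Y (s j) (c j) (m j) (1 / (2 : ℝ) ^ u) (t + (k : ℤ)) (F.indicator 1) x}
      = ENNReal.ofReal ((4 : ℝ) ^ t) * (ENNReal.ofReal ((4 : ℝ) ^ (-t)) *
        ∑ k ∈ Finset.range K, volume {x | 1 / (u : ℝ) ^ 2 ≤ ∑ j ∈ Finset.range (2 ^ u),
        Y (s j) (c j) (m j) (1 / (2 : ℝ) ^ u) (t + (k : ℤ)) (F.indicator 1) x}) := by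
        rw [← mul_assoc, h1, one_mul]
    _ ≤ ENNReal.ofReal ((4 : ℝ) ^ t) * (ENNReal.ofReal (C * (2 : ℝ) ^ ((q - ε) * u)) *
        (ENNReal.ofReal ((4 : ℝ) ^ (-t)) * volume F)) := hres2
    _ = (ENNReal.ofReal ((4 : ℝ) ^ t) * ENNReal.ofReal ((4 : ℝ) ^ (-t))) *
        (ENNReal.ofReal (C * (2 : ℝ) ^ ((q - ε) * u)) * volume F) := by ring
    _ = ENNReal.ofReal (C * (2 : ℝ) ^ ((q - ε) * u)) * volume F := by rw [h1, one_mul]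

end Pool.Agent.Helper74.RL
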