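import Pool.Agent.Helper20.RL.St5

set_option autoImplicit false

open MeasureTheory Set Filter Topology
open scoped ENNReal RealInnerProductSpace

namespace Pool.Agent.Helper74.RL

open Pool.Agent.Helper68.LM (Pl BB Bd Av HL ft fm DQ)
open Pool.Agent.Helper20.RG Pool.Agent.Helper20.RL

theorem PDF_sq (r t : ℝ) : ‖r‖ₑ ^ 2 ≤ 2 * ‖r - t‖ₑ ^ 2 + 2 * ‖t‖ₑ ^ 2 := by
  have e : ∀ r : ℝ, ‖r‖ₑ ^ 2 = ENNReal.ofReal (r ^ 2) := by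
    intro r
    rw [← sq_abs, ENNReal.ofReal_pow (abs_nonneg r), Real.enorm_eq_ofReal_abs]
  have e2 : (2 : ℝ≥0∞) = ENNReal.ofReal 2 := by simp
  rw [e, e, e, e2, ← ENNReal.ofReal_mul (by norm_num), ← ENNReal.ofReal_mul (by norm_num),
    ← ENNReal.ofReal_add (by positivity) (by positivity)]
  apply ENNReal.ofReal_le_ofReal
  nlinarith [sq_nonneg (r - t - t)]

theorem hPDF (hPER : StPER) (hTOP : StTOP) (hYB : StYB) : StPDF := by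
  intro φ τ A σ c hG hGap hA hσ
  obtain ⟨C1, hC1, h1⟩ := hPER φ τ A σ c hG hGap hA hσ
  obtain ⟨C2, hC2, h2⟩ := hTOP φ τ A σ c hG hGap hA hσ
  have hAσ : 0 < A ^ σ := Real.rpow_pos_of_pos hA _
  refine ⟨2 * C1 + 6 * C2 + 2 * C2 * A ^ σ, by positivity, ?_⟩
  intro u hu g hg
  have k1 := h1 u 0 hu g hg
  have k2 := h2 u 0 hu g hg
  set T : ℤ → Pl → ℝ := fun k x => (1 / (2 : ℝ) ^ u) * ∑ j ∈ Finset.range (2 ^ u),
    Z (τ (tm u j)) (ce c φ u j) (mm τ u j) (mm τ (u - 1) (j / 2)) ((2 : ℝ) ^ 0) k g x with hT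
  have hTm : ∀ k, Measurable (T k) := by
    intro k
    rw [hT]
    refine Measurable.const_mul ?_ _
    refine Finset.measurable_sum _ fun j _ => ?_
    unfold Z
    exact ((hYB _ _ _ _ k g (hG.1 _) (by positivity) hg).1.1).sub
      ((hYB _ _ _ _ k g (hG.1 _) (by positivity) hg).1.1)
  have hE : ∑' k : ℤ, ∫⁻ x, ‖Sa c φ τ u k g x - Sa c φ τ (u - 1) k g x‖ₑ ^ 2 ≤
      2 * (∑' k : ℤ, ∫⁻ x, ‖Sa c φ τ u k g x - Sa c φ τ (u - 1) k g x - T k x‖ₑ ^ 2) +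
      2 * (∑' k : ℤ, ∫⁻ x, ‖T k x‖ₑ ^ 2) := by
    rw [← ENNReal.tsum_mul_left, ← ENNReal.tsum_mul_left, ← ENNReal.tsum_add]
    refine ENNReal.tsum_le_tsum fun k => ?_
    have hm : Measurable fun x => 2 * ‖T k x‖ₑ ^ 2 :=
      ((hTm k).enorm.pow_const 2).const_mul 2
    calc ∫⁻ x, ‖Sa c φ τ u k g x - Sa c φ τ (u - 1) k g x‖ₑ ^ 2
        ≤ ∫⁻ x, (2 * ‖Sa c φ τ u k g x - Sa c φ τ (u - 1) k g x - T k x‖ₑ ^ 2 +
          2 * ‖T k x‖ₑ ^ 2) := lintegral_mono fun x => PDF_sq _ _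
      _ = (∫⁻ x, 2 * ‖Sa c φ τ u k g x - Sa c φ τ (u - 1) k g x - T k x‖ₑ ^ 2) +
          ∫⁻ x, 2 * ‖T k x‖ₑ ^ 2 := lintegral_add_right _ hm
      _ = _ := by
          rw [lintegral_const_mul' _ _ (by simp), lintegral_const_mul' _ _ (by simp)]
  have k1' : ∑' k : ℤ, ∫⁻ x, ‖Sa c φ τ u k g x - Sa c φ τ (u - 1) k g x - T k x‖ₑ ^ 2 ≤
      ENNReal.ofReal (C1 * (2 : ℝ) ^ (-(u : ℝ)) * ((u : ℝ) + 1) ^ 2 * (u + 1)) *
        ∫⁻ x, ‖g x‖ₑ ^ 2 := by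
    have := k1
    simp only [Nat.cast_zero, zero_add] at this
    exact this
  refine hE.trans ?_
  set I : ℝ≥0∞ := ∫⁻ x, ‖g x‖ₑ ^ 2 with hI
  have hKA : ((KA A σ u : ℕ) : ℝ) ≤ u + 2 + A ^ σ * (2 : ℝ) ^ (σ * u) := by
    unfold KA
    push_cast
    have h3 := (Nat.ceil_lt_add_one (show 0 ≤ (A * (2 : ℝ) ^ u) ^ σ by positivity)).le
    have h4 : (A * (2 : ℝ) ^ u) ^ σ = A ^ σ * (2 : ℝ) ^ (σ * u) := by
      rw [Real.mul_rpow hA.le (by positivity), ← Real.rpow_natCast, ← Real.rpow_mul (by norm_num)]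
      congr 2
      ring
    rw [h4] at h3 ⊢
    linarith
  have e4 : (4 : ℝ) ^ (-(u : ℤ)) = (2 : ℝ) ^ (-(u : ℝ)) * (2 : ℝ) ^ (-(u : ℝ)) := by
    rw [← Real.rpow_add (by norm_num), zpow_neg, zpow_natCast]
    rw [show (-(u : ℝ) + -(u : ℝ)) = -(2 * (u : ℝ)) by ring, Real.rpow_neg (by norm_num),
      Real.rpow_mul (by norm_num)]
    norm_num
  have e5 : (2 : ℝ) ^ (-(u : ℝ)) * (2 : ℝ) ^ (-(u : ℝ)) * (2 : ℝ) ^ (σ * u) =
      (2 : ℝ) ^ ((σ - 2) * u) := by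
    rw [← Real.rpow_add (by norm_num), ← Real.rpow_add (by norm_num)]
    congr 1
    ring
  have hp1 : (2 : ℝ) ^ (-(u : ℝ)) ≤ 1 := by
    rw [Real.rpow_neg (by norm_num), Real.rpow_natCast]
    exact inv_le_one_of_one_le₀ (one_le_pow₀ (by norm_num))
  have hp0 : (0 : ℝ) < (2 : ℝ) ^ (-(u : ℝ)) := by positivity
  have hu0 : (0 : ℝ) ≤ u := Nat.cast_nonneg u
  calc 2 * (∑' k : ℤ, ∫⁻ x, ‖Sa c φ τ u k g x - Sa c φ τ (u - 1) k g x - T k x‖ₑ ^ 2) +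
      2 * (∑' k : ℤ, ∫⁻ x, ‖T k x‖ₑ ^ 2)
      ≤ 2 * (ENNReal.ofReal (C1 * (2 : ℝ) ^ (-(u : ℝ)) * ((u : ℝ) + 1) ^ 2 * (u + 1)) * I) +
        2 * (ENNReal.ofReal (C2 * (4 : ℝ) ^ (-(u : ℤ)) * (KA A σ u + u + 1)) * I) := by
        gcongr
    _ = ENNReal.ofReal (2 * (C1 * (2 : ℝ) ^ (-(u : ℝ)) * ((u : ℝ) + 1) ^ 2 * (u + 1)) +
        2 * (C2 * (4 : ℝ) ^ (-(u : ℤ)) * (KA A σ u + u + 1))) * I := by
        have hPP : 0 ≤ C1 * (2 : ℝ) ^ (-(u : ℝ)) * ((u : ℝ) + 1) ^ 2 * (u + 1) := by positivity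
        have hQQ : 0 ≤ C2 * (4 : ℝ) ^ (-(u : ℤ)) * (KA A σ u + u + 1) := by positivity
        generalize C1 * (2 : ℝ) ^ (-(u : ℝ)) * ((u : ℝ) + 1) ^ 2 * (u + 1) = PP at *
        generalize C2 * (4 : ℝ) ^ (-(u : ℤ)) * (KA A σ u + u + 1) = QQ at *
        rw [ENNReal.ofReal_add (by positivity) (by positivity),
          ENNReal.ofReal_mul (by norm_num), ENNReal.ofReal_mul (by norm_num)]
        rw [show ENNReal.ofReal 2 = (2 : ℝ≥0∞) by simp]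
        ring
    _ ≤ _ := by
        gcongr
        rw [e4]
        have m1 : C2 * ((2 : ℝ) ^ (-(u : ℝ)) * (2 : ℝ) ^ (-(u : ℝ))) *
            (((KA A σ u : ℕ) : ℝ) + u + 1) ≤
            3 * C2 * ((2 : ℝ) ^ (-(u : ℝ)) * ((u : ℝ) + 1)) +
              C2 * A ^ σ * (2 : ℝ) ^ ((σ - 2) * u) := by
          calc C2 * ((2 : ℝ) ^ (-(u : ℝ)) * (2 : ℝ) ^ (-(u : ℝ))) *
                (((KA A σ u : ℕ) : ℝ) + u + 1)
              ≤ C2 * ((2 : ℝ) ^ (-(u : ℝ)) * (2 : ℝ) ^ (-(u : ℝ))) *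
                ((u + 2 + A ^ σ * (2 : ℝ) ^ (σ * u)) + u + 1) := by gcongr
            _ = C2 * ((2 : ℝ) ^ (-(u : ℝ)) * ((2 : ℝ) ^ (-(u : ℝ)) * (2 * u + 3))) +
                C2 * A ^ σ * ((2 : ℝ) ^ (-(u : ℝ)) * (2 : ℝ) ^ (-(u : ℝ)) *
                  (2 : ℝ) ^ (σ * u)) := by ring
            _ ≤ C2 * ((2 : ℝ) ^ (-(u : ℝ)) * (1 * (3 * ((u : ℝ) + 1)))) +
                C2 * A ^ σ * ((2 : ℝ) ^ ((σ - 2) * u)) := by
                rw [e5]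
                gcongr
                linarith
            _ = _ := by ring
        have m2 : (2 : ℝ) ^ (-(u : ℝ)) * ((u : ℝ) + 1) ≤
            ((u : ℝ) + 1) ^ 3 * (2 : ℝ) ^ (-(u : ℝ)) := by
          have : (u : ℝ) + 1 ≤ ((u : ℝ) + 1) ^ 3 := by
            have h5 : (1 : ℝ) ≤ ((u : ℝ) + 1) ^ 2 := by nlinarith
            nlinarith
          nlinarith
        have m3 : (0 : ℝ) ≤ (2 : ℝ) ^ ((σ - 2) * u) := by positivity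
        have m4 : 0 ≤ ((u : ℝ) + 1) ^ 3 * (2 : ℝ) ^ (-(u : ℝ)) := by positivity
        have m5 : 0 ≤ C2 * A ^ σ * (((u : ℝ) + 1) ^ 3 * (2 : ℝ) ^ (-(u : ℝ))) := by positivity
        have m6 : 0 ≤ C1 * (2 : ℝ) ^ ((σ - 2) * u) := by positivity
        have m7 : 0 ≤ C2 * (2 : ℝ) ^ ((σ - 2) * u) := by positivity
        have m8 := mul_le_mul_of_nonneg_left m2 hC2.le
        have m9 : C1 * (2 : ℝ) ^ (-(u : ℝ)) * ((u : ℝ) + 1) ^ 2 * (u + 1) =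
          C1 * (((u : ℝ) + 1) ^ 3 * (2 : ℝ) ^ (-(u : ℝ))) := by ring
        rw [m9]
        nlinarith [m1, m8, m5, m6, m7]

end Pool.Agent.Helper74.RL
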