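import Pool.Agent.Helper20.RL.St4

set_option autoImplicit false

open MeasureTheory Set Filter Topology
open scoped ENNReal RealInnerProductSpace

namespace Pool.Agent.Helper74.RL

open Pool.Agent.Helper68.LM (Pl BB Bd Av HL ft fm DQ)
open Pool.Agent.Helper20.RG Pool.Agent.Helper20.RL

theorem PLD_Sqm (y : Pl) (r : ℝ) : MeasurableSet (Sq y r) := by
  unfold Sq
  apply IsClosed.measurableSet
  apply IsClosed.and
  · exact isClosed_le (by fun_prop) continuous_const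
  · exact isClosed_le (by fun_prop) continuous_const

theorem hPLD (hPT : StPT) (hLGR : StLGR) (hPRD : StPRD) : StPLD := by
  intro u s v a F D θ θ' V Z Af Bf x ha hF hCtl hD hθ hθ' hj
  obtain ⟨g1, g2, g3, g4, g5⟩ := hLGR
  obtain ⟨hFm, hFb⟩ := hF
  have h2a : (0 : ℝ) < (2 : ℝ) ^ a := by positivity
  have haa4 : (2 : ℝ) ^ (a + 4) = 16 * (2 : ℝ) ^ a := by
    rw [zpow_add₀ (by norm_num)]; norm_num; ring
  set F' : Set Pl := F ∩ Sq x ((2 : ℝ) ^ (a + 4)) with hF'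
  have hF'm : MeasurableSet F' := hFm.inter (PLD_Sqm _ _)
  have hF'v : volume F' ≤ ENNReal.ofReal (D * (4 : ℝ) ^ (a + 4)) := by
    obtain ⟨n, hn⟩ := Int.eq_ofNat_of_zero_le (show 0 ≤ a + 4 by omega)
    have h1 := hCtl x n
    rw [hF', hn, zpow_natCast, zpow_natCast]
    exact h1
  have hone : ∀ j < 2 ^ u,
      volume (Rg (s j) (v j) ((2 : ℝ) ^ a) (Z j) (Bf j) ∩ Sq x (4 * (2 : ℝ) ^ a)) ≤
      ENNReal.ofReal (21 / θ') * ENNReal.ofReal (D * (4 : ℝ) ^ (a + 4)) := by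
    intro j hjj
    obtain ⟨hs, hv0, hv1, hFml, hZV, hZ⟩ := hj j hjj
    set Z' : Set Pl := Z j ∩ Sq x (9 * (2 : ℝ) ^ a) with hZ'
    set V' : Set Pl := {w | ∃ z ∈ Z', w ∈ RQ (s j) a (Bf j z) z} with hV'
    have hB : ∀ z ∈ Z', ∀ w ∈ RQ (s j) a (Bf j z) z, Bf j w = Bf j z := by
      intro z hz w hw
      exact (hFml.inv z (hZV hz.1) w (g3 _ _ _ _ _ _ (hZ z hz.1).1 le_rfl hw)).2.2
    have hrich : ∀ z ∈ Z', Rich F' (s j) a (Bf j z) θ' z := by
      intro z hz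
      have hr := (hZ z hz.1).2.2
      unfold Rich at hr ⊢
      refine le_trans hr (measure_mono ?_)
      rintro w ⟨hwF, hw⟩
      refine ⟨⟨hwF, ?_⟩, hw⟩
      obtain ⟨e1, -, e3⟩ := g4 (s j) _ _ _ _ hs hw
      obtain ⟨e4, e5⟩ := hz.2
      have e6 : (2 : ℝ) ^ (Bf j z) ≤ (2 : ℝ) ^ a :=
        zpow_le_zpow_right₀ (by norm_num) (hZ z hz.1).2.1
      rw [abs_lt] at e1 e3
      rw [abs_le] at e4 e5
      rw [haa4]
      refine ⟨abs_le.mpr ⟨by linarith, by linarith⟩, abs_le.mpr ⟨by linarith, by linarith⟩⟩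
    have hFml' : Fml F' (s j) θ' V' (fun _ => a) (Bf j) := by
      refine ⟨?_, ?_⟩
      · rintro w ⟨z, hz, hw⟩ w' hw'
        have e1 := hB z hz w hw
        rw [e1, g2 _ _ _ _ _ hw] at hw'
        exact ⟨⟨z, hz, hw'⟩, rfl, by rw [e1]; exact hB z hz w' hw'⟩
      · rintro w ⟨z, hz, hw⟩
        have e1 := hB z hz w hw
        have e2 := hrich z hz
        unfold Rich at e2 ⊢
        rw [e1, g2 _ _ _ _ _ hw]
        exact e2
    have hPR := hPRD.2 F' (s j) θ' θ' V' Z' (fun _ => a) (Bf j) a (v j) hF'm hFml' hθ' hθ'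
      (fun z hz => ⟨z, hz, (g1 _ _ _ _).2.2⟩) (fun z hz => ⟨le_rfl, hrich z hz⟩)
    have hsub : Rg (s j) (v j) ((2 : ℝ) ^ a) (Z j) (Bf j) ∩ Sq x (4 * (2 : ℝ) ^ a) ⊆
        Rg (s j) (v j) ((2 : ℝ) ^ a) Z' (Bf j) := by
      rintro y ⟨⟨z, hz, h1, h2⟩, h3, h4⟩
      refine ⟨z, ⟨hz, ?_⟩, h1, h2⟩
      have e0 : (y - v j) 0 = y 0 - v j 0 := rfl
      have e1 : (y - v j) 1 = y 1 - v j 1 := rfl
      have e6 : (2 : ℝ) ^ (Bf j z) ≤ (2 : ℝ) ^ a :=
        zpow_le_zpow_right₀ (by norm_num) (hZ z hz).2.1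
      have h5 : |s j * ((y - v j) 0 - z 0)| ≤ (2 : ℝ) ^ a := by
        rw [abs_mul]
        calc |s j| * |(y - v j) 0 - z 0| ≤ 1 * (2 : ℝ) ^ a :=
              mul_le_mul hs h1.le (abs_nonneg _) (by norm_num)
          _ = _ := one_mul _
      unfold pr at h2
      rw [e0] at h1 h2 h5
      rw [e1] at h2
      rw [abs_lt] at h1 h2
      rw [abs_le] at h3 h4 hv0 hv1 h5
      refine ⟨abs_le.mpr ⟨by linarith, by linarith⟩, abs_le.mpr ⟨?_, ?_⟩⟩
      · nlinarith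
      · nlinarith
    calc _ ≤ volume (Rg (s j) (v j) ((2 : ℝ) ^ a) Z' (Bf j)) := measure_mono hsub
      _ ≤ ENNReal.ofReal (21 / θ') * volume (F' ∩ V') := hPR
      _ ≤ ENNReal.ofReal (21 / θ') * ENNReal.ofReal (D * (4 : ℝ) ^ (a + 4)) := by
          gcongr
          exact (measure_mono inter_subset_left).trans hF'v
  calc _ ≤ ∑ j ∈ Finset.range (2 ^ u), ENNReal.ofReal (21 / θ') *
          ENNReal.ofReal (D * (4 : ℝ) ^ (a + 4)) :=
        Finset.sum_le_sum fun j hjj => hone j (Finset.mem_range.mp hjj)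
    _ = ENNReal.ofReal (5376 * 2 ^ u * D / θ' * (4 : ℝ) ^ a) := by
        rw [Finset.sum_const, Finset.card_range, nsmul_eq_mul, ← ENNReal.ofReal_mul (by positivity)]
        have e1 : ((2 ^ u : ℕ) : ℝ≥0∞) = ENNReal.ofReal ((2 : ℝ) ^ u) := by
          rw [← Nat.cast_ofNat (R := ℝ), ← Nat.cast_pow, ENNReal.ofReal_natCast]
        rw [e1, ← ENNReal.ofReal_mul (by positivity)]
        congr 1
        rw [zpow_add₀ (by norm_num)]
        norm_num
        field_simp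
        ring

end Pool.Agent.Helper74.RL
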