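import Pool.Agent.Helper20.RL.St5

set_option autoImplicit false

open MeasureTheory Set Filter Topology
open scoped ENNReal RealInnerProductSpace

namespace Pool.Agent.Helper74.RL

open Pool.Agent.Helper68.LM (Pl BB Bd Av HL ft fm DQ)
open Pool.Agent.Helper20.RG Pool.Agent.Helper20.RL

theorem PMB_bd (hPT : StPT) (φ τ : ℝ → ℝ) (c : Pl) (hG : Graph φ τ) :
    Bd (‖c‖ + |φ 0| + 3) 1 (arc c φ) := by
  obtain ⟨q1, -, q3, -⟩ := hPT
  unfold arc
  by_cases hm : AEMeasurable (fun t : ℝ => c + pt t (φ t)) (volume.restrict (Icc (0 : ℝ) 1))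
  · refine ⟨?_, ?_⟩
    · rw [Measure.map_apply_of_aemeasurable hm Metric.isClosed_closedBall.measurableSet.compl]
      rw [Measure.restrict_apply' measurableSet_Icc]
      have : (fun t : ℝ => c + pt t (φ t)) ⁻¹' (Metric.closedBall (0 : Pl) (‖c‖ + |φ 0| + 3))ᶜ ∩
          Icc (0 : ℝ) 1 = ∅ := by
        rw [Set.eq_empty_iff_forall_notMem]
        rintro t ⟨ht, ht0, ht1⟩
        apply ht
        rw [Metric.mem_closedBall, dist_zero_right]
        have h1 := hG.2 0 t ht0
        have h2 := (abs_le.mp (hG.1 0))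
        have h3 := (abs_le.mp (hG.1 t))
        have h4 : |φ t - φ 0| ≤ 1 := by
          rw [abs_le]
          rw [sub_zero] at h1
          constructor
          · nlinarith [h1.1]
          · nlinarith [h1.2]
        have h5 : |φ t| ≤ |φ 0| + 1 := by
          have := abs_sub_abs_le_abs_sub (φ t) (φ 0)
          linarith
        have h6 := (q3 (pt t (φ t))).2.2.1
        rw [(q1 t (φ t)).1, (q1 t (φ t)).2, abs_of_nonneg ht0] at h6
        calc ‖c + pt t (φ t)‖ ≤ ‖c‖ + ‖pt t (φ t)‖ := norm_add_le _ _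
          _ ≤ ‖c‖ + |φ 0| + 3 := by linarith
      rw [this, measure_empty]
    · rw [Measure.map_apply_of_aemeasurable hm MeasurableSet.univ]
      simp
  · rw [Measure.map_of_not_aemeasurable hm]
    exact ⟨by simp, by simp⟩

theorem hPMB (hPT : StPT) (hPRW : StPRW) (hLIP : StLIP) : StPMB := by
  intro φ τ A σ q p c hG hGap hA hσ hσq hq hq3 hqp
  exact hLIP (arc c φ) (‖c‖ + |φ 0| + 3) 1 q p (PMB_bd hPT φ τ c hG) (by linarith) hqp
    (hPRW φ τ A σ q c hG hGap hA hσ hσq hq hq3)

end Pool.Agent.Helper74.RL
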