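import Pool.Agent.Helper20.RL.St5

set_option autoImplicit false

open MeasureTheory Set Filter Topology
open scoped ENNReal RealInnerProductSpace

namespace Pool.Agent.Helper74.RL

open Pool.Agent.Helper68.LM (Pl BB Bd Av HL ft fm DQ)
open Pool.Agent.Helper20.RG Pool.Agent.Helper20.RL

theorem PSP_a (x : ℝ) (u : ℕ) (hx : (1 / 2 : ℝ) ^ u ≤ x) :
    ∃ a ≤ u, (1 / 2 : ℝ) ^ a ≤ x ∧ min x 1 ≤ 2 * (1 / 2 : ℝ) ^ a := by
  classical
  have hex : ∃ a : ℕ, (1 / 2 : ℝ) ^ a ≤ x := ⟨u, hx⟩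
  refine ⟨Nat.find hex, Nat.find_le hx, Nat.find_spec hex, ?_⟩
  rcases Nat.eq_zero_or_pos (Nat.find hex) with h | h
  · rw [h, pow_zero]
    exact (min_le_right _ _).trans (by norm_num)
  · have h1 := Nat.find_min hex (show Nat.find hex - 1 < Nat.find hex by omega)
    rw [not_le] at h1
    have h2 : (1 / 2 : ℝ) ^ (Nat.find hex) = (1 / 2 : ℝ) ^ (Nat.find hex - 1) * (1 / 2) := by
      rw [← pow_succ]; congr 1; omega
    rw [h2]
    exact (min_le_left _ _).trans (by linarith)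

theorem PSP_b (y : ℝ) (u : ℕ) (hy : y ≤ (2 : ℝ) ^ u) :
    ∃ b ≤ u, y ≤ (2 : ℝ) ^ b ∧ (2 : ℝ) ^ b ≤ 2 * max y 1 := by
  classical
  have hex : ∃ b : ℕ, y ≤ (2 : ℝ) ^ b := ⟨u, hy⟩
  refine ⟨Nat.find hex, Nat.find_le hy, Nat.find_spec hex, ?_⟩
  rcases Nat.eq_zero_or_pos (Nat.find hex) with h | h
  · rw [h, pow_zero]
    have := le_max_right y 1
    linarith
  · have h1 := Nat.find_min hex (show Nat.find hex - 1 < Nat.find hex by omega)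
    rw [not_le] at h1
    have h2 : (2 : ℝ) ^ (Nat.find hex) = (2 : ℝ) ^ (Nat.find hex - 1) * 2 := by
      rw [← pow_succ]; congr 1; omega
    rw [h2]
    have := le_max_left y 1
    linarith

theorem PSP_pt (x y f : ℝ) (u : ℕ) (hx : 0 ≤ x) (hy : 0 ≤ y) (hf : 0 ≤ f) (h1 : f ≤ 1)
    (h2 : f ≤ x) (h3 : f * y ≤ 1) (h4 : f * y ≤ x) (hu : (1 / 2 : ℝ) ^ u < f) :
    ∃ a ≤ u, ∃ b ≤ u, (1 / 2 : ℝ) ^ a ≤ x ∧ y ≤ (2 : ℝ) ^ b ∧
      f ≤ 4 * ((1 / 2 : ℝ) ^ a * (1 / 2 : ℝ) ^ b) := by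
  obtain ⟨a, ha, ha1, ha2⟩ := PSP_a x u (hu.le.trans h2)
  have hyu : y ≤ (2 : ℝ) ^ u := by
    have e1 : (1 / 2 : ℝ) ^ u * (2 : ℝ) ^ u = 1 := by
      rw [← mul_pow]; norm_num
    have e2 : (1 / 2 : ℝ) ^ u * y ≤ 1 := (mul_le_mul_of_nonneg_right hu.le hy).trans h3
    by_contra hc
    rw [not_le] at hc
    have e3 : (1 / 2 : ℝ) ^ u * (2 : ℝ) ^ u < (1 / 2 : ℝ) ^ u * y :=
      mul_lt_mul_of_pos_left hc (by positivity)
    linarith
  obtain ⟨b, hb, hb1, hb2⟩ := PSP_b y u hyu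
  refine ⟨a, ha, b, hb, ha1, hb1, ?_⟩
  have k1 : f * max y 1 ≤ min x 1 := by
    rcases max_choice y 1 with h | h <;> rw [h]
    · exact le_min h4 h3
    · rw [mul_one]; exact le_min h2 h1
  have k2 : f * (2 : ℝ) ^ b ≤ 4 * (1 / 2 : ℝ) ^ a := by
    calc f * (2 : ℝ) ^ b ≤ f * (2 * max y 1) := mul_le_mul_of_nonneg_left hb2 hf
      _ = 2 * (f * max y 1) := by ring
      _ ≤ 2 * (2 * (1 / 2 : ℝ) ^ a) := by linarith
      _ = _ := by ring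
  have e1 : (2 : ℝ) ^ b * (1 / 2 : ℝ) ^ b = 1 := by
    rw [← mul_pow]; norm_num
  calc f = f * (2 : ℝ) ^ b * (1 / 2 : ℝ) ^ b := by rw [mul_assoc, e1, mul_one]
    _ ≤ 4 * (1 / 2 : ℝ) ^ a * (1 / 2 : ℝ) ^ b := mul_le_mul_of_nonneg_right k2 (by positivity)
    _ = _ := by ring

theorem hPSP (hSC : StSC) : StPSP := by
  intro C₀ hC₀
  obtain ⟨C, hC, hS⟩ := hSC C₀ hC₀
  refine ⟨1 + 8 * C, by positivity, ?_⟩
  intro u s c m m' R K A σ hSys ξ f hξ hf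
  classical
  set P : ℕ → ℕ → ℕ → Prop := fun a b j => (1 / 2 : ℝ) ^ a ≤ ‖ξ‖ * (2 : ℝ) ^ (-(m' j : ℤ)) ∧
    1 / (2 : ℝ) ^ u * |⟪E (s j), ξ⟫| ≤ (2 : ℝ) ^ b with hP
  have hpt : ∀ j ∈ Finset.range (2 ^ u), f j ≤ (1 / 2 : ℝ) ^ u +
      ∑ a ∈ Finset.range (u + 1), ∑ b ∈ Finset.range (u + 1),
        (if P a b j then 4 * ((1 / 2 : ℝ) ^ a * (1 / 2 : ℝ) ^ b) else 0) := by
    intro j hj
    obtain ⟨h0, h1, h2, h3, h4⟩ := hf j (Finset.mem_range.mp hj)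
    have hnn : ∀ a b : ℕ, (0 : ℝ) ≤
        (if P a b j then 4 * ((1 / 2 : ℝ) ^ a * (1 / 2 : ℝ) ^ b) else 0) := by
      intro a b; split_ifs <;> positivity
    by_cases hs : f j ≤ (1 / 2 : ℝ) ^ u
    · have : (0 : ℝ) ≤ ∑ a ∈ Finset.range (u + 1), ∑ b ∈ Finset.range (u + 1),
        (if P a b j then 4 * ((1 / 2 : ℝ) ^ a * (1 / 2 : ℝ) ^ b) else 0) :=
        Finset.sum_nonneg fun a _ => Finset.sum_nonneg fun b _ => hnn a b
      linarith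
    · rw [not_le] at hs
      obtain ⟨a, ha, b, hb, k1, k2, k3⟩ := PSP_pt (‖ξ‖ * (2 : ℝ) ^ (-(m' j : ℤ)))
        (1 / (2 : ℝ) ^ u * |⟪E (s j), ξ⟫|) (f j) u (by positivity) (by positivity) h0 h1 h2 h3 h4 hs
      have e1 : (if P a b j then 4 * ((1 / 2 : ℝ) ^ a * (1 / 2 : ℝ) ^ b) else 0) ≤
          ∑ b ∈ Finset.range (u + 1),
            (if P a b j then 4 * ((1 / 2 : ℝ) ^ a * (1 / 2 : ℝ) ^ b) else 0) :=
        Finset.single_le_sum (f := fun b => if P a b j then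
          4 * ((1 / 2 : ℝ) ^ a * (1 / 2 : ℝ) ^ b) else 0) (fun b _ => hnn a b)
          (Finset.mem_range.mpr (by omega))
      have e2 : ∑ b ∈ Finset.range (u + 1),
            (if P a b j then 4 * ((1 / 2 : ℝ) ^ a * (1 / 2 : ℝ) ^ b) else 0) ≤
          ∑ a ∈ Finset.range (u + 1), ∑ b ∈ Finset.range (u + 1),
            (if P a b j then 4 * ((1 / 2 : ℝ) ^ a * (1 / 2 : ℝ) ^ b) else 0) :=
        Finset.single_le_sum (f := fun a => ∑ b ∈ Finset.range (u + 1), if P a b j then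
          4 * ((1 / 2 : ℝ) ^ a * (1 / 2 : ℝ) ^ b) else 0)
          (fun a _ => Finset.sum_nonneg fun b _ => hnn a b) (Finset.mem_range.mpr (by omega))
      rw [if_pos (show P a b j from ⟨k1, k2⟩)] at e1
      have : (0 : ℝ) ≤ (1 / 2 : ℝ) ^ u := by positivity
      linarith
  have hcount : ∀ a ≤ u, ∀ b ≤ u, ∑ j ∈ Finset.range (2 ^ u),
      (if P a b j then 4 * ((1 / 2 : ℝ) ^ a * (1 / 2 : ℝ) ^ b) else 0) ≤ 8 * C := by
    intro a ha b hb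
    have h2a : (0 : ℝ) < (2 : ℝ) ^ a := by positivity
    have hh := hS u s c m m' R K A σ hSys ξ ((1 / 2 : ℝ) ^ a)
      ((2 : ℝ) ^ a / ((2 : ℝ) ^ b * (2 : ℝ) ^ u)) hξ (by positivity)
      (pow_le_one₀ (by norm_num) (by norm_num)) (by positivity)
    have e1 : {j : ℕ | j < 2 ^ u ∧ (1 / 2 : ℝ) ^ a ≤ ‖ξ‖ * (2 : ℝ) ^ (-(m' j : ℤ)) ∧
        (2 : ℝ) ^ a / ((2 : ℝ) ^ b * (2 : ℝ) ^ u) * |⟪E (s j), ξ⟫| ≤ 1 / (1 / 2 : ℝ) ^ a} =
        (((Finset.range (2 ^ u)).filter (P a b) : Finset ℕ) : Set ℕ) := by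
      ext j
      simp only [mem_ofPred_eq, Finset.coe_filter, Finset.mem_range, hP]
      have e3 : (1 : ℝ) / (1 / 2 : ℝ) ^ a = (2 : ℝ) ^ a := by
        rw [one_div, ← inv_pow]; norm_num
      have e4 : (2 : ℝ) ^ a / ((2 : ℝ) ^ b * (2 : ℝ) ^ u) * |⟪E (s j), ξ⟫| ≤
          1 / (1 / 2 : ℝ) ^ a ↔ 1 / (2 : ℝ) ^ u * |⟪E (s j), ξ⟫| ≤ (2 : ℝ) ^ b := by
        rw [e3]
        have e5 : (2 : ℝ) ^ a / ((2 : ℝ) ^ b * (2 : ℝ) ^ u) * |⟪E (s j), ξ⟫| =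
            (2 : ℝ) ^ a * ((1 / (2 : ℝ) ^ u * |⟪E (s j), ξ⟫|) / (2 : ℝ) ^ b) := by
          field_simp
        rw [e5]
        constructor
        · intro h
          have h6 : (1 / (2 : ℝ) ^ u * |⟪E (s j), ξ⟫|) / (2 : ℝ) ^ b ≤ 1 := by
            by_contra hc
            rw [not_le] at hc
            nlinarith
          rwa [div_le_one (by positivity)] at h6
        · intro h
          have h6 : (1 / (2 : ℝ) ^ u * |⟪E (s j), ξ⟫|) / (2 : ℝ) ^ b ≤ 1 := by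
            rwa [div_le_one (by positivity)]
          nlinarith
      rw [e4]
    rw [e1, Set.ncard_coe_finset] at hh
    rw [← Finset.sum_filter, Finset.sum_const, nsmul_eq_mul]
    have e6 : C * (1 + 1 / ((2 : ℝ) ^ u * ((2 : ℝ) ^ a / ((2 : ℝ) ^ b * (2 : ℝ) ^ u)) *
        ((1 / 2 : ℝ) ^ a) ^ 2)) = C * (1 + (2 : ℝ) ^ a * (2 : ℝ) ^ b) := by
      have : ((1 / 2 : ℝ) ^ a) = 1 / (2 : ℝ) ^ a := by rw [one_div_pow]
      rw [this]
      field_simp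
    rw [e6] at hh
    calc (((Finset.range (2 ^ u)).filter (P a b)).card : ℝ) *
          (4 * ((1 / 2 : ℝ) ^ a * (1 / 2 : ℝ) ^ b))
        ≤ C * (1 + (2 : ℝ) ^ a * (2 : ℝ) ^ b) * (4 * ((1 / 2 : ℝ) ^ a * (1 / 2 : ℝ) ^ b)) :=
          mul_le_mul_of_nonneg_right hh (by positivity)
      _ = 4 * C * ((1 / 2 : ℝ) ^ a * (1 / 2 : ℝ) ^ b +
          ((2 : ℝ) ^ a * (1 / 2 : ℝ) ^ a) * ((2 : ℝ) ^ b * (1 / 2 : ℝ) ^ b)) := by ring
      _ ≤ 4 * C * (1 + 1) := by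
          have i1 : (2 : ℝ) ^ a * (1 / 2 : ℝ) ^ a = 1 := by rw [← mul_pow]; norm_num
          have i2 : (2 : ℝ) ^ b * (1 / 2 : ℝ) ^ b = 1 := by rw [← mul_pow]; norm_num
          have i3 : (1 / 2 : ℝ) ^ a ≤ 1 := pow_le_one₀ (by norm_num) (by norm_num)
          have i4 : (1 / 2 : ℝ) ^ b ≤ 1 := pow_le_one₀ (by norm_num) (by norm_num)
          have i5 : (1 / 2 : ℝ) ^ a * (1 / 2 : ℝ) ^ b ≤ 1 :=
            mul_le_one₀ i3 (by positivity) i4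
          rw [i1, i2]
          gcongr
          linarith
      _ = 8 * C := by ring
  calc ∑ j ∈ Finset.range (2 ^ u), f j ≤ ∑ j ∈ Finset.range (2 ^ u), ((1 / 2 : ℝ) ^ u +
      ∑ a ∈ Finset.range (u + 1), ∑ b ∈ Finset.range (u + 1),
        (if P a b j then 4 * ((1 / 2 : ℝ) ^ a * (1 / 2 : ℝ) ^ b) else 0)) :=
        Finset.sum_le_sum hpt
    _ = 1 + ∑ a ∈ Finset.range (u + 1), ∑ b ∈ Finset.range (u + 1),
        ∑ j ∈ Finset.range (2 ^ u),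
        (if P a b j then 4 * ((1 / 2 : ℝ) ^ a * (1 / 2 : ℝ) ^ b) else 0) := by
        rw [Finset.sum_add_distrib, Finset.sum_const, Finset.card_range, nsmul_eq_mul]
        congr 1
        · push_cast
          rw [← mul_pow]; norm_num
        · rw [Finset.sum_comm]
          refine Finset.sum_congr rfl fun a _ => ?_
          rw [Finset.sum_comm]
    _ ≤ 1 + ∑ a ∈ Finset.range (u + 1), ∑ b ∈ Finset.range (u + 1), 8 * C := by
        gcongr with a ha b hb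
        exact hcount a (by have := Finset.mem_range.mp ha; omega) b
          (by have := Finset.mem_range.mp hb; omega)
    _ = 1 + ((u : ℝ) + 1) ^ 2 * (8 * C) := by
        rw [Finset.sum_const, Finset.sum_const, Finset.card_range, nsmul_eq_mul, nsmul_eq_mul]
        push_cast
        ring
    _ ≤ (1 + 8 * C) * ((u : ℝ) + 1) ^ 2 := by
        have : (1 : ℝ) ≤ ((u : ℝ) + 1) ^ 2 := by
          have : (0 : ℝ) ≤ u := Nat.cast_nonneg u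
          nlinarith
        nlinarith

end Pool.Agent.Helper74.RL
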