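import Pool.Agent.Helper20.RL.St2

set_option autoImplicit false

open MeasureTheory Set Filter Topology
open scoped ENNReal RealInnerProductSpace

namespace Pool.Agent.Helper74.RL

open Pool.Agent.Helper68.LM (Pl BB Bd Av HL ft fm DQ)
open Pool.Agent.Helper20.RG Pool.Agent.Helper20.RL

theorem ns_nonneg (u b : ℕ) (A σ : ℝ) (hA : 0 ≤ A) : 0 ≤ ns u b A σ := by
  unfold ns; positivity

theorem M0_nonneg (κ : ℝ) (u b : ℕ) (A σ D θ : ℝ) (hκ : 1 ≤ κ) (hA : 0 ≤ A) :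
    0 ≤ M0 κ u b A σ D θ := by
  unfold M0
  have := ns_nonneg u b A σ hA
  have hκ' : 0 ≤ κ := by linarith
  positivity

theorem om_mono (u b l l' : ℕ) (h : l ≤ l') : om u b l ≤ om u b l' := by
  unfold om; gcongr

theorem rich_mono (F : Set Pl) (s : ℝ) (a b : ℤ) (θ θ' : ℝ) (y : Pl) (h : θ' ≤ θ)
    (hr : Rich F s a b θ y) : Rich F s a b θ' y := by
  unfold Rich at *
  refine le_trans (ENNReal.ofReal_le_ofReal ?_) hr
  exact mul_le_mul_of_nonneg_right h (by positivity)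

theorem abs_coord_le (v : Pl) (i : Fin 2) : |v i| ≤ ‖v‖ := by
  have := EuclideanSpace.norm_eq v
  rw [this, Fin.sum_univ_two]
  apply Real.le_sqrt_of_sq_le
  simp only [Real.norm_eq_abs, sq_abs]
  fin_cases i
  · simp only [Fin.zero_eta]; nlinarith [sq_nonneg (v 1)]
  · simp only [Fin.mk_one]; nlinarith [sq_nonneg (v 0)]

theorem hLXD (hPT : StPT) (hLGR : StLGR) (hLFM : StLFM) (hLER : StLER) (hLLM : StLLM)
    (hLUF : StLUF) : StLXD := by
  intro κ hκ hLC u b l i k A σ s c m F D η x hu hb hl hMt hi hA hSlo hcm hF hCtl hD hDη hη1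
  obtain ⟨g1, g2, g3, g4, g5⟩ := hLGR
  obtain ⟨-, -, -, -, -, hlad, hthr⟩ := hLLM u (by omega)
  obtain ⟨hFm, hFb⟩ := hF
  set τ : ℕ := 16 * u * b + l + 1 with hτ
  set a : ℕ := om u (b - 1) (16 * u - i) with ha
  have haval : 1024 ≤ a := by
    have h1 : 1 ≤ 2 ^ (b - 1) := Nat.one_le_two_pow
    have h2 : 1 ≤ u ^ 2 := Nat.one_le_pow _ _ (by omega)
    rw [ha]; unfold om
    calc 1024 = 1 * (1024 * 1 + 0) := by norm_num
      _ ≤ 2 ^ (b - 1) * (1024 * u ^ 2 + 64 * u * (16 * u - i)) :=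
        Nat.mul_le_mul h1 (Nat.add_le_add (Nat.mul_le_mul_left _ h2) (Nat.zero_le _))
  have hau : u ≤ a := by
    have h1 : 1 ≤ 2 ^ (b - 1) := Nat.one_le_two_pow
    have h2 : u ≤ u ^ 2 := by nlinarith
    rw [ha]; unfold om
    calc u ≤ 1 * (1024 * u ^ 2 + 0) := by nlinarith
      _ ≤ 2 ^ (b - 1) * (1024 * u ^ 2 + 64 * u * (16 * u - i)) :=
        Nat.mul_le_mul h1 (Nat.add_le_add le_rfl (Nat.zero_le _))
  have hom0 : om u (b - 1) 0 ≤ a := om_mono _ _ _ _ (Nat.zero_le _)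
  obtain ⟨t, ht, hta⟩ := hlad b l i (by omega) hl hi
  have hDpos : 0 < D := lt_of_lt_of_le (by positivity) hD
  have hη0 : 0 < η := by linarith
  have hτM : τ ≤ Mt u + 1 := by omega
  obtain ⟨-, hth⟩ := hthr η hη0
  have hthr' : η / 2 ≤ thr u η t := (hth t (by omega)).1
  set aa : ℤ := (k : ℤ) + (a : ℤ) with haa
  have h2aa : (0 : ℝ) < (2 : ℝ) ^ aa := by positivity
  set F' : Set Pl := F ∩ Sq x ((2 : ℝ) ^ (aa + 4)) with hF'
  have hSqm : ∀ (y : Pl) (r : ℝ), MeasurableSet (Sq y r) := by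
    intro y r
    unfold Sq
    apply IsClosed.measurableSet
    apply IsClosed.and
    · exact isClosed_le (by fun_prop) continuous_const
    · exact isClosed_le (by fun_prop) continuous_const
  have hF'm : MeasurableSet F' := hFm.inter (hSqm _ _)
  have hF'b : BM F' := ⟨hF'm, hFb.subset inter_subset_left⟩
  have hF'c : Ctl D F' := fun y k' =>
    le_trans (measure_mono (inter_subset_inter_left _ inter_subset_left)) (hCtl y k')
  set V : ℕ → Set Pl := fun j => {z | ∃ y ∈ CU F (s j) (m j) u η τ k,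
    y ∈ Sq x (9 * (2 : ℝ) ^ aa) ∧ z ∈ RQ (s j) aa ((k : ℤ) - (m j : ℤ)) y} with hV
  have hkm : ∀ j < 2 ^ u, (2 : ℝ) ^ ((k : ℤ) - (m j : ℤ)) ≤ (2 : ℝ) ^ (aa - 2) := by
    intro j hj
    apply zpow_le_zpow_right₀ (by norm_num)
    omega
  have haa2 : (2 : ℝ) ^ (aa - 2) = (2 : ℝ) ^ aa / 4 := by
    rw [zpow_sub₀ (by norm_num)]; norm_num
  have haa4 : (2 : ℝ) ^ (aa + 4) = 16 * (2 : ℝ) ^ aa := by
    rw [zpow_add₀ (by norm_num)]; norm_num; ring
  have hFml : ∀ j < 2 ^ u, Fml F' (s j) (η / 2) (V j) (fun _ => aa)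
      (fun _ => (k : ℤ) - (m j : ℤ)) := by
    intro j hj
    refine ⟨?_, ?_⟩
    · rintro z ⟨y, hy, hyS, hz⟩ z' hz'
      refine ⟨⟨y, hy, hyS, ?_⟩, rfl, rfl⟩
      rwa [g2 _ _ _ _ _ hz] at hz'
    · rintro z ⟨y, hy, hyS, hz⟩
      have hr : Rich F (s j) aa ((k : ℤ) - (m j : ℤ)) (η / 2) y := by
        have h1 := hy.2 t ht
        rw [hta] at h1
        exact rich_mono _ _ _ _ _ _ _ hthr' h1
      unfold Rich at hr ⊢
      rw [g2 _ _ _ _ _ hz]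
      refine le_trans hr (measure_mono ?_)
      rintro w ⟨hwF, hw⟩
      refine ⟨⟨hwF, ?_⟩, hw⟩
      obtain ⟨e1, -, e3⟩ := g4 (s j) _ _ _ _ (hSlo.1 j hj) hw
      obtain ⟨e4, e5⟩ := hyS
      have e6 := hkm j hj
      rw [haa2] at e6
      rw [abs_lt] at e1 e3
      rw [abs_le] at e4 e5
      rw [haa4]
      refine ⟨abs_le.mpr ⟨by linarith, by linarith⟩, abs_le.mpr ⟨by linarith, by linarith⟩⟩
  have hLC1 := hLC u (b - 1) A σ s F' D (η / 2) V (fun _ _ => aa)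
    (fun j _ => (k : ℤ) - (m j : ℤ)) hu (by omega) hA hSlo hF'b hF'c hD (by linarith) (by linarith)
    (fun j hj => ⟨hFml j hj, fun z _ => ⟨by omega, by omega⟩⟩)
  have hF'v : volume F' ≤ ENNReal.ofReal (D * (4 : ℝ) ^ (aa + 4)) := by
    have h1 := hCtl x (k + a + 4)
    have e1 : aa + 4 = ((k + a + 4 : ℕ) : ℤ) := by rw [haa]; push_cast; ring
    rw [hF', e1, zpow_natCast, zpow_natCast]
    exact h1
  have hone : ∀ j < 2 ^ u, volume ({x₁ | ∃ y ∈ CU F (s j) (m j) u η τ k,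
        |(x₁ - (2 : ℝ) ^ (k : ℤ) • c j) 0 - y 0| < (2 : ℝ) ^ aa ∧
        |pr (s j) (x₁ - (2 : ℝ) ^ (k : ℤ) • c j) - pr (s j) y| <
          3 * (2 : ℝ) ^ ((k : ℤ) - (m j : ℤ))} ∩ Sq x (4 * (2 : ℝ) ^ aa)) ≤
      ENNReal.ofReal (42 / η) * volume (F' ∩ V j) := by
    intro j hj
    have hE := hLER F' (s j) (η / 2) (η / 2) (V j) (V j) (fun _ => aa)
      (fun _ => (k : ℤ) - (m j : ℤ)) aa 1 3 hF'm (hFml j hj) (by linarith) (by linarith)
      (Subset.refl _) (fun z hz => ⟨le_rfl, (hFml j hj).rich z hz⟩)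
    set T : Set Pl := {x₂ | ∃ z ∈ V j, |x₂ 0 - z 0| ≤ ((1 : ℕ) : ℝ) * (2 : ℝ) ^ aa ∧
      |pr (s j) x₂ - pr (s j) z| ≤ ((3 : ℕ) : ℝ) * (2 : ℝ) ^ ((k : ℤ) - (m j : ℤ))} with hT
    have hsub : ({x₁ | ∃ y ∈ CU F (s j) (m j) u η τ k,
        |(x₁ - (2 : ℝ) ^ (k : ℤ) • c j) 0 - y 0| < (2 : ℝ) ^ aa ∧
        |pr (s j) (x₁ - (2 : ℝ) ^ (k : ℤ) • c j) - pr (s j) y| <
          3 * (2 : ℝ) ^ ((k : ℤ) - (m j : ℤ))} ∩ Sq x (4 * (2 : ℝ) ^ aa)) ⊆
        (fun h => h + (-((2 : ℝ) ^ (k : ℤ) • c j))) ⁻¹' T := by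
      rintro x₁ ⟨⟨y, hy, h1, h2⟩, h3, h4⟩
      have hc : ‖(2 : ℝ) ^ (k : ℤ) • c j‖ ≤ (2 : ℝ) ^ aa := by
        rw [norm_smul, Real.norm_of_nonneg (by positivity)]
        calc (2 : ℝ) ^ (k : ℤ) * ‖c j‖ ≤ (2 : ℝ) ^ (k : ℤ) * (2 : ℝ) ^ u :=
              mul_le_mul_of_nonneg_left (hcm j hj).1 (by positivity)
          _ = (2 : ℝ) ^ ((k : ℤ) + (u : ℤ)) := by
              rw [zpow_add₀ (by norm_num), zpow_natCast, zpow_natCast]
          _ ≤ (2 : ℝ) ^ aa := zpow_le_zpow_right₀ (by norm_num) (by omega)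
      have c0 := (abs_coord_le ((2 : ℝ) ^ (k : ℤ) • c j) 0).trans hc
      have c1' := (abs_coord_le ((2 : ℝ) ^ (k : ℤ) • c j) 1).trans hc
      have e0 : (x₁ - (2 : ℝ) ^ (k : ℤ) • c j) 0 = x₁ 0 - ((2 : ℝ) ^ (k : ℤ) • c j) 0 := rfl
      have e1 : (x₁ - (2 : ℝ) ^ (k : ℤ) • c j) 1 = x₁ 1 - ((2 : ℝ) ^ (k : ℤ) • c j) 1 := rfl
      have e6 := hkm j hj
      rw [haa2] at e6
      have hs := hSlo.1 j hj
      refine ⟨y, ⟨y, hy, ?_, (g1 _ _ _ _).2.2⟩, ?_, ?_⟩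
      · have h1' := h1
        rw [e0] at h1'
        have h5 : |s j * ((x₁ - (2 : ℝ) ^ (k : ℤ) • c j) 0 - y 0)| ≤ (2 : ℝ) ^ aa := by
          rw [abs_mul]
          calc |s j| * |(x₁ - (2 : ℝ) ^ (k : ℤ) • c j) 0 - y 0| ≤ 1 * (2 : ℝ) ^ aa :=
                mul_le_mul hs h1.le (abs_nonneg _) (by norm_num)
            _ = _ := one_mul _
        unfold pr at h2
        rw [e1] at h2
        rw [abs_lt] at h1' h2
        rw [abs_le] at h3 h4 c0 c1' h5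
        refine ⟨abs_le.mpr ⟨by linarith, by linarith⟩, abs_le.mpr ⟨?_, ?_⟩⟩
        · nlinarith
        · nlinarith
      · show |(x₁ + -((2 : ℝ) ^ (k : ℤ) • c j)) 0 - y 0| ≤ _
        rw [← sub_eq_add_neg, Nat.cast_one, one_mul]
        exact h1.le
      · show |pr (s j) (x₁ + -((2 : ℝ) ^ (k : ℤ) • c j)) - pr (s j) y| ≤ _
        rw [← sub_eq_add_neg]
        exact h2.le
    calc _ ≤ volume ((fun h => h + (-((2 : ℝ) ^ (k : ℤ) • c j))) ⁻¹' T) := measure_mono hsub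
      _ = volume T := measure_preimage_add_right _ _ _
      _ ≤ ENNReal.ofReal ((2 * (1 : ℕ) + 1) * (2 * (3 : ℕ) + 1) / (η / 2)) *
          volume (F' ∩ V j) := hE
      _ = ENNReal.ofReal (42 / η) * volume (F' ∩ V j) := by
          congr 2
          push_cast
          field_simp
          norm_num
  have hM := M0_nonneg κ u (b - 1) A σ D (η / 2) hκ hA
  calc _ ≤ ∑ j ∈ Finset.range (2 ^ u), ENNReal.ofReal (42 / η) * volume (F' ∩ V j) :=
        Finset.sum_le_sum fun j hj => hone j (Finset.mem_range.mp hj)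
    _ = ENNReal.ofReal (42 / η) * ∑ j ∈ Finset.range (2 ^ u), volume (F' ∩ V j) := by
        rw [Finset.mul_sum]
    _ ≤ ENNReal.ofReal (42 / η) * (ENNReal.ofReal (4 * M0 κ u (b - 1) A σ D (η / 2)) *
          ENNReal.ofReal (D * (4 : ℝ) ^ (aa + 4))) := by
        gcongr
        exact le_trans hLC1 (by gcongr)
    _ = ENNReal.ofReal (43008 * M0 κ u (b - 1) A σ D (η / 2) * D / η * (4 : ℝ) ^ aa) := by
        rw [← ENNReal.ofReal_mul (by positivity), ← ENNReal.ofReal_mul (by positivity)]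
        congr 1
        rw [zpow_add₀ (by norm_num)]
        norm_num
        field_simp
        ring

end Pool.Agent.Helper74.RL
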