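import Pool.Agent.Helper20.RL.St4

set_option autoImplicit false

open MeasureTheory Set Filter Topology
open scoped ENNReal RealInnerProductSpace

namespace Pool.Agent.Helper74.RL

open Pool.Agent.Helper68.LM (Pl BB Bd Av HL ft fm DQ)
open Pool.Agent.Helper20.RG Pool.Agent.Helper20.RL

theorem PRT_om (u b l : ℕ) : u ≤ om u b l := by
  have h1 : 1 ≤ 2 ^ b := Nat.one_le_two_pow
  have h2 : u ≤ u ^ 2 := by nlinarith [Nat.zero_le u, sq_nonneg ((u : ℤ) - 1)]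
  unfold om
  calc u ≤ 1 * (1024 * u ^ 2 + 0) := by nlinarith
    _ ≤ 2 ^ b * (1024 * u ^ 2 + 64 * u * l) :=
      Nat.mul_le_mul h1 (Nat.add_le_add le_rfl (Nat.zero_le _))

theorem hPRT (hPRD : StPRD) (hPLD : StPLD) (hLWR : StLWR) : StPRT := by
  obtain ⟨C₂, hC₂, hW⟩ := hLWR
  refine ⟨1024 * C₂, by linarith, ?_⟩
  intro u b k A σ s v F D θ θ' m V Z Af Bf hu hb hk hA hSlo hF hCtl hD hθ hθ' hj hm1 hm2 hm3
  obtain ⟨p1, p2⟩ := hPRD
  set D₀ : ℝ := 5376 * 2 ^ u * D / θ' with hD₀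
  have hD₀p : 0 < D₀ := by positivity
  set E₀ : ℝ≥0∞ := ENNReal.ofReal (21 / θ') * ∑ j ∈ Finset.range (2 ^ u), volume (F ∩ V j) with hE₀
  have hLW := hW u b k A σ s
    (fun i j => Rg (s j) (v j) ((2 : ℝ) ^ (k + (om u (b - 1) (16 * u - i) : ℤ) - 1)) (Z j) (Bf j))
    (fun i j => Rg (s j) (v j) ((2 : ℝ) ^ (k + (om u (b - 1) (16 * u - i) : ℤ))) (Z j) (Bf j))
    D₀ m E₀ {x | m ≤ ({j : ℕ | j < 2 ^ u ∧ ∀ i < 16 * u, x ∈ Rg (s j) (v j)
        ((2 : ℝ) ^ (k + (om u (b - 1) (16 * u - i) : ℤ) - 1)) (Z j) (Bf j)}.ncard : ℝ)}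
    hu hb hA hSlo hD₀p ?_ ?_ ?_ hm1 hm2 hm3 (fun x hx => hx)
  · refine hLW.trans (le_of_eq ?_)
    rw [hE₀, ← mul_assoc, ← ENNReal.ofReal_mul]
    · congr 2
      ring
    · have hns : 0 ≤ ns u b A σ := by unfold ns; positivity
      have hC : 0 ≤ C₂ := by linarith
      have hm0 : 0 < m := by linarith
      positivity
  · intro i hi j hjj
    refine ⟨(p1 _ _ _ _ _).1, (p1 _ _ _ _ _).1.measurableSet, ?_⟩
    intro y hy lam hlam
    have h2 : 2 * (2 : ℝ) ^ (k + (om u (b - 1) (16 * u - i) : ℤ) - 1) =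
        (2 : ℝ) ^ (k + (om u (b - 1) (16 * u - i) : ℤ)) := by
      rw [zpow_sub₀ (by norm_num)]; norm_num; ring
    have h3 := (p1 (s j) (v j) ((2 : ℝ) ^ (k + (om u (b - 1) (16 * u - i) : ℤ) - 1)) (Z j)
      (Bf j)).2.1 y hy lam (hlam.trans ?_)
    · rw [h2] at h3; exact h3
    · have h4 : 32 ≤ 2 ^ (b - 1) * (16 * u) := by
        have h1 : 1 ≤ 2 ^ (b - 1) := Nat.one_le_two_pow
        calc 32 = 1 * (16 * 2) := by norm_num
          _ ≤ 2 ^ (b - 1) * (16 * u) := Nat.mul_le_mul h1 (by omega)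
      calc 10 * (2 : ℝ) ^ (k + (om u (b - 1) (16 * u - i) : ℤ) - ((2 ^ (b - 1) * (16 * u) : ℕ) : ℤ))
          ≤ (2 : ℝ) ^ (4 : ℤ) * (2 : ℝ) ^ (k + (om u (b - 1) (16 * u - i) : ℤ) -
            ((2 ^ (b - 1) * (16 * u) : ℕ) : ℤ)) := by
            gcongr
            norm_num
        _ = (2 : ℝ) ^ (4 + (k + (om u (b - 1) (16 * u - i) : ℤ) -
            ((2 ^ (b - 1) * (16 * u) : ℕ) : ℤ))) := (zpow_add₀ (by norm_num) _ _).symm
        _ ≤ _ := by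
            apply zpow_le_zpow_right₀ (by norm_num)
            have h5 : (32 : ℤ) ≤ ((2 ^ (b - 1) * (16 * u) : ℕ) : ℤ) := by exact_mod_cast h4
            linarith
  · intro i hi x
    refine hPLD u s v (k + (om u (b - 1) (16 * u - i) : ℤ)) F D θ θ' V Z Af Bf x
      (by positivity) hF hCtl hD hθ hθ' (fun j hjj => ?_)
    obtain ⟨q1, q2, q3, q4, q5⟩ := hj j hjj
    have h1 : (2 : ℝ) ^ (k + (u : ℤ)) ≤ (2 : ℝ) ^ (k + (om u (b - 1) (16 * u - i) : ℤ)) := by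
      apply zpow_le_zpow_right₀ (by norm_num)
      have := PRT_om u (b - 1) (16 * u - i)
      have h2 : (u : ℤ) ≤ (om u (b - 1) (16 * u - i) : ℤ) := by exact_mod_cast this
      linarith
    exact ⟨hSlo.1 j hjj, q1.trans h1, q2.trans h1, q3, q4, fun z hz => q5 z hz i hi⟩
  · intro i hi
    rw [hE₀, Finset.mul_sum]
    refine Finset.sum_le_sum fun j hjj => ?_
    obtain ⟨q1, q2, q3, q4, q5⟩ := hj j (Finset.mem_range.mp hjj)
    exact p2 F (s j) θ θ' (V j) (Z j) (Af j) (Bf j) (k + (om u (b - 1) (16 * u - i) : ℤ)) (v j)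
      hF.1 q3 hθ hθ' q4 (fun z hz => ⟨(q5 z hz i hi).1, (q5 z hz i hi).2.2⟩)

end Pool.Agent.Helper74.RL
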